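import Pool.Agent.TH900.VPC.Asm

/-! # Vinogradov's system in `k + 1` pairs of variables: `O(N^(6 (k+1)^(1/3) + 4))` non-diagonal solutions -/

set_option autoImplicit false

namespace Pool.Agent.Results.MP_e21eee_nt.PaucityCubeRoot

open scoped Classical in
/-- The number of non-diagonal solutions in `[1,N]` of Vinogradov's system of degree `k` in `k + 1` pairs of
variables is
1. `O(N^(n + a + b + 1 + ((k+1)/n) (16/(5b) + 1/a) + ε))` for all integers `n, a, b ≥ 1` and every `ε > 0`;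
2. `O(N^(6 (k+1)^(1/3) + 4))`. -/
theorem result (k : ℕ) :
    (∀ n a b : ℕ, 1 ≤ n → 1 ≤ a → 1 ≤ b → ∀ ε : ℝ, 0 < ε → ∃ C : ℝ, ∀ N : ℕ, 1 ≤ N →
      ((((Fintype.piFinset fun _ : Fin (k + 1) => Finset.Icc 1 N) ×ˢ
          (Fintype.piFinset fun _ : Fin (k + 1) => Finset.Icc 1 N)).filter
          (fun p : (Fin (k + 1) → ℕ) × (Fin (k + 1) → ℕ) =>
            (∀ j : Fin k, ∑ i : Fin (k + 1), p.1 i ^ (j.val + 1) =
              ∑ i : Fin (k + 1), p.2 i ^ (j.val + 1)) ∧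
            ¬ ∃ σ : Equiv.Perm (Fin (k + 1)), p.2 = p.1 ∘ σ)).card : ℝ)
        ≤ C * (N : ℝ) ^
          ((n : ℝ) + a + b + 1 + ((k : ℝ) + 1) / n * (16 / (5 * b) + 1 / a) + ε)) ∧
    (∃ C : ℝ, ∀ N : ℕ, 1 ≤ N →
      ((((Fintype.piFinset fun _ : Fin (k + 1) => Finset.Icc 1 N) ×ˢ
          (Fintype.piFinset fun _ : Fin (k + 1) => Finset.Icc 1 N)).filter
          (fun p : (Fin (k + 1) → ℕ) × (Fin (k + 1) → ℕ) =>
            (∀ j : Fin k, ∑ i : Fin (k + 1), p.1 i ^ (j.val + 1) =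
              ∑ i : Fin (k + 1), p.2 i ^ (j.val + 1)) ∧
            ¬ ∃ σ : Equiv.Perm (Fin (k + 1)), p.2 = p.1 ∘ σ)).card : ℝ)
        ≤ C * (N : ℝ) ^ (6 * ((k : ℝ) + 1) ^ ((1 : ℝ) / 3) + 4)) := by
  refine ⟨fun n a b hn ha hb ε hε => ?_, ?_⟩
  · obtain ⟨C, -, hC⟩ := Pool.Agent.TH900.VPC.nondiag_cube k n a b hn ha hb ε hε
    refine ⟨C, fun N hN => ?_⟩
    have h1 := hC N hN
    rw [Pool.Agent.W89.VP.VN, Pool.Agent.W89.VP.VS, Finset.filter_filter] at h1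
    convert h1 using 1
  · obtain ⟨C, -, hC⟩ := Pool.Agent.TH900.VPC.nondiag_cube6 k
    refine ⟨C, fun N hN => ?_⟩
    have h1 := hC N hN
    rw [Pool.Agent.W89.VP.VN, Pool.Agent.W89.VP.VS, Finset.filter_filter] at h1
    convert h1 using 1

end Pool.Agent.Results.MP_e21eee_nt.PaucityCubeRoot
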