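import Pool.Agent.TH900.VPS.Final

/-! # Vinogradov's system in `s` pairs of variables with `s` up to `9k/8`: few non-diagonal solutions -/

set_option autoImplicit false

namespace Pool.Agent.Results.MP_e21eee_nt.PaucitySquareRoot

open scoped Classical in
/-- Let `k < s` and `d = s - k`. Then:
1. if `3 d ≤ k`, the number of non-diagonal solutions in `[1,N]` of Vinogradov's system of degree `k` in `s` pairs
of variables is `O(N^(√(4(2d-1)s+1) + d - 1 + ε))` for every `ε > 0` (for `d = 1` the exponent is `√(4k+5) + ε`);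
2. if `8 d ≤ k`, the number of all solutions is `s! N^s + O(N^(s-1))`;
3. if `8 d ≤ k + 3`, the number of all solutions is `O(N^s)`. -/
theorem result (s k : ℕ) (hks : k < s) :
    (3 * (s - k) ≤ k → ∀ ε : ℝ, 0 < ε → ∃ C : ℝ, ∀ N : ℕ, 1 ≤ N →
      ((((Fintype.piFinset fun _ : Fin s => Finset.Icc 1 N) ×ˢ
          (Fintype.piFinset fun _ : Fin s => Finset.Icc 1 N)).filter
          (fun p : (Fin s → ℕ) × (Fin s → ℕ) =>
            (∀ j : Fin k, ∑ i : Fin s, p.1 i ^ (j.val + 1) = ∑ i : Fin s, p.2 i ^ (j.val + 1)) ∧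
            ¬ ∃ σ : Equiv.Perm (Fin s), p.2 = p.1 ∘ σ)).card : ℝ)
        ≤ C * (N : ℝ) ^
          (Real.sqrt (4 * (2 * ((s : ℝ) - k) - 1) * s + 1) + ((s : ℝ) - k - 1) + ε)) ∧
    (8 * (s - k) ≤ k → ∃ C : ℝ, ∀ N : ℕ, 1 ≤ N →
      |((((Fintype.piFinset fun _ : Fin s => Finset.Icc 1 N) ×ˢ
          (Fintype.piFinset fun _ : Fin s => Finset.Icc 1 N)).filter
          (fun p : (Fin s → ℕ) × (Fin s → ℕ) =>
            ∀ j : Fin k, ∑ i : Fin s, p.1 i ^ (j.val + 1) = ∑ i : Fin s, p.2 i ^ (j.val + 1))).card : ℝ)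
          - (s.factorial : ℝ) * (N : ℝ) ^ s| ≤ C * (N : ℝ) ^ (s - 1)) ∧
    (8 * (s - k) ≤ k + 3 → ∃ C : ℝ, ∀ N : ℕ, 1 ≤ N →
      ((((Fintype.piFinset fun _ : Fin s => Finset.Icc 1 N) ×ˢ
          (Fintype.piFinset fun _ : Fin s => Finset.Icc 1 N)).filter
          (fun p : (Fin s → ℕ) × (Fin s → ℕ) =>
            ∀ j : Fin k, ∑ i : Fin s, p.1 i ^ (j.val + 1) = ∑ i : Fin s, p.2 i ^ (j.val + 1))).card : ℝ)
        ≤ C * (N : ℝ) ^ s) := by
  refine ⟨fun h3 ε hε => ?_, fun h8 => ?_, fun h8 => ?_⟩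
  · obtain ⟨C, -, hC⟩ := Pool.Agent.TH900.VPS.nondiag_sqrt s k hks h3 ε hε
    refine ⟨C, fun N hN => ?_⟩
    have h1 := hC N hN
    rw [Pool.Agent.W89.VP.VN, Pool.Agent.W89.VP.VS, Finset.filter_filter] at h1
    convert h1 using 1
  · obtain ⟨C, hC⟩ := Pool.Agent.TH900.VPS.asym s k hks h8
    refine ⟨C, fun N hN => ?_⟩
    have h2 := hC N hN
    rw [Pool.Agent.W89.VP.VS] at h2
    convert h2 using 1
  · obtain ⟨C, hC⟩ := Pool.Agent.TH900.VPS.upper s k hks h8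
    refine ⟨C, fun N hN => ?_⟩
    have h2 := hC N hN
    rw [Pool.Agent.W89.VP.VS] at h2
    convert h2 using 1

end Pool.Agent.Results.MP_e21eee_nt.PaucitySquareRoot
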